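import Pool.Agent.MP_5d9b3c_ag.H48L.Final

/-!
The strong form of Igusa's monodromy conjecture, for every prime `p`, for all integer polynomials
whose singular points over `ℤ_[p]` are, after stabilisation and re-embedding, Newton nondegenerate
in some etale chart over `ℚ_[p]`.
-/

namespace Pool.Agent.Results.MP_5d9b3c_ag.LocallyNondegenerate

open MvPolynomial Pool.Agent.MP_5d9b3c_ag

/-- Igusa's Poincare series: the `m`-th coefficient is the number of zeros of `f` in
`(ℤ / p ^ m) ^ n`, times `p ^ (-n m)`. -/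
noncomputable def poincare {n : ℕ} (f : MvPolynomial (Fin n) ℤ) (p : ℕ) : PowerSeries ℚ :=
  PowerSeries.mk fun m : ℕ =>
    (Nat.card {x : Fin n → ZMod (p ^ m) // aeval x f = 0} : ℚ) * (((p : ℚ) ^ n)⁻¹) ^ m

/-- The Weyl algebra, as the algebra of operators on `ℂ[x_1, ..., x_n]` generated by the
multiplications by the variables and the derivations `pderiv i`. -/
noncomputable def weyl (n : ℕ) : Subalgebra ℂ (Module.End ℂ (MvPolynomial (Fin n) ℂ)) :=
  Algebra.adjoin ℂ
    (Set.range (fun i : Fin n => LinearMap.mulLeft ℂ (X i : MvPolynomial (Fin n) ℂ)) ∪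
      Set.range (fun i : Fin n => (pderiv i :
        Derivation ℂ (MvPolynomial (Fin n) ℂ) (MvPolynomial (Fin n) ℂ)).toLinearMap))

/-- `b` satisfies a Bernstein functional equation for `g`: there is an operator
`P(s) = ∑ s ^ t P_t` over the Weyl algebra with `P(m) g ^ (m + 1) = b(m) g ^ m` for every
natural number `m`. -/
def IsBFunction {n : ℕ} (g : MvPolynomial (Fin n) ℂ) (b : Polynomial ℂ) : Prop :=
  ∃ (d : ℕ) (P : ℕ → Module.End ℂ (MvPolynomial (Fin n) ℂ)), (∀ t, P t ∈ weyl n) ∧
    ∀ m : ℕ, ∑ t ∈ Finset.range d, (m : ℂ) ^ t • P t (g ^ (m + 1)) = b.eval (m : ℂ) • g ^ m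

/-- The face polynomial: the sum of the terms of `g` of least `w`-weight. -/
noncomputable def face {σ K : Type} [Field K] (w : σ → ℕ) (g : MvPolynomial σ K) :
    MvPolynomial σ K :=
  ∑ a ∈ g.support with (∀ a' ∈ g.support, Finsupp.weight w a ≤ Finsupp.weight w a'),
    monomial a (coeff a g)

/-- The system of polynomials `e` is Newton nondegenerate at the point `c`: for each weight that is
positive exactly on the variables with `c i = 0`, and each point `x` of the torus over the algebraic
closure that agrees with `c` in the other variables, the gradients at `x` of the face polynomials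
that vanish at `x` are linearly independent. -/
def NondegenerateAt {σ I K : Type} [Field K] (c : σ → K) (e : I → MvPolynomial σ K) : Prop :=
  ∀ (w : σ → ℕ) (x : σ → AlgebraicClosure K), (∀ i, 0 < w i ↔ c i = 0) → (∀ i, x i ≠ 0) →
    (∀ i, c i ≠ 0 → x i = algebraMap K (AlgebraicClosure K) (c i)) →
    LinearIndependent (AlgebraicClosure K)
      (fun (o : {o : I // aeval x (face w (e o)) = 0}) (t : σ) =>
        aeval x (pderiv t (face w (e o))))

/-- The stabilisation `f(x) + ∑ μ_j y_j`, in variables `x`, `μ`, `y` and `k` more variables. -/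
noncomputable def stabilise {n : ℕ} (f : MvPolynomial (Fin n) ℤ) (r k : ℕ) :
    MvPolynomial (Fin n ⊕ Fin r ⊕ Fin r ⊕ Fin k) ℤ :=
  rename Sum.inl f + ∑ j : Fin r, X (Sum.inr (Sum.inl j)) * X (Sum.inr (Sum.inr (Sum.inl j)))

/-- A nondegenerate chart for `F` at `a`: a polynomial map `(φ, g)` over `ℚ_[p]`, etale at a point
`c` which it sends to `(a, 0)`, and `h` congruent modulo `g` to `F ∘ φ` times a unit at `c`, such
that the system `(h, g)` is nondegenerate at `c`. -/
def HasChart {τ : Type} [Fintype τ] [DecidableEq τ] {p : ℕ} [Fact p.Prime]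
    (F : MvPolynomial τ ℤ) (a : τ → ℤ_[p]) : Prop :=
  ∃ (m : ℕ) (c : τ ⊕ Fin m → ℚ_[p]) (φ : τ → MvPolynomial (τ ⊕ Fin m) ℚ_[p])
    (g : Fin m → MvPolynomial (τ ⊕ Fin m) ℚ_[p]) (h u : MvPolynomial (τ ⊕ Fin m) ℚ_[p]),
    (∀ i, eval c (φ i) = (a i : ℚ_[p])) ∧ (∀ j, eval c (g j) = 0) ∧
    (Matrix.of fun s t => eval c (pderiv t (Sum.elim φ g s))).det ≠ 0 ∧ eval c u ≠ 0 ∧
    h - u * aeval φ F ∈ Ideal.span (Set.range g) ∧
    NondegenerateAt c (fun o : Option (Fin m) => o.elim h g)

theorem map_face {σ K : Type} [Fintype σ] [Field K] (j : K →+* ℂ) (w : σ → ℕ)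
    (g : MvPolynomial σ K) : H48L.fc w (map j g) = map j (face w g) := by
  classical
  ext α
  rw [H48L.coeff_fc, support_map_of_injective _ j.injective, coeff_map, coeff_map, face, coeff_sum]
  simp only [coeff_monomial, Finset.sum_ite_eq', Finset.mem_filter]
  by_cases h : α ∈ g.support
  · simp only [h, true_and]
    split_ifs <;> simp
  · simp [h, notMem_support_iff.1 h]

theorem ndAt {σ I K : Type} [Fintype σ] [Fintype I] [Field K] (E : AlgebraicClosure K ≃+* ℂ)
    {c : σ → K} {e : I → MvPolynomial σ K} (h : NondegenerateAt c e) :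
    H48L.NDAt (fun i => (E.toRingHom.comp (algebraMap K _)) (c i))
      (fun o => map (E.toRingHom.comp (algebraMap K _)) (e o)) := by
  classical
  intro w x hw hx hc y hy hz
  have key : ∀ q : MvPolynomial σ K, eval x (map (E.toRingHom.comp (algebraMap K _)) q) =
      E (aeval (fun i => E.symm (x i)) q) := fun q => by
    induction q using MvPolynomial.induction_on with
    | C r => simp
    | add p q hp hq => simp only [map_add, hp, hq]
    | mul_X p i hp => rw [map_mul, map_mul, map_mul, map_mul, hp]; simp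
  have h1 := h w (fun i => E.symm (x i)) (fun i => by simpa using hw i)
    (fun i => by simpa using hx i) (fun i hi => by
      rw [hc i (by simpa using hi)]
      simp)
  by_contra h2
  push Not at h2
  simp only [map_face, pderiv_map, key] at h2 hz
  have h3 : ∀ o, y o ≠ 0 → aeval (fun i => E.symm (x i)) (face w (e o)) = 0 :=
    fun o ho => by simpa using (hz o ho).2
  have h4 := Fintype.linearIndependent_iff.1 h1 (fun o => E.symm (y o)) (by
    ext t
    apply E.injective
    rw [Finset.sum_apply, Pi.zero_apply, map_zero, map_sum, ← h2 t,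
      ← Finset.sum_filter_of_ne (p := fun o => aeval (fun i => E.symm (x i)) (face w (e o)) = 0)
        (fun o _ ho => h3 o (left_ne_zero_of_mul ho)),
      ← Finset.sum_subtype_eq_sum_filter, Finset.subtype_univ]
    simp)
  refine hy (funext fun o => ?_)
  by_contra ho
  exact ho (by simpa using h4 ⟨o, h3 o ho⟩)

theorem result (n : ℕ) (f : MvPolynomial (Fin n) ℤ) (hdeg : f.totalDegree ≠ 0)
    (p : ℕ) [Fact p.Prime]
    (hchart : ∀ a : Fin n → ℤ_[p], aeval a f = 0 → (∀ i, aeval a (pderiv i f) = 0) →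
      ∃ r k : ℕ, HasChart (stabilise f r k) (Sum.elim a 0))
    (A B : Polynomial ℚ) (hAB : IsCoprime A B)
    (hP : (B : PowerSeries ℚ) * poincare f p = (A : PowerSeries ℚ))
    (T₀ : ℂ) (hT : Polynomial.aeval T₀ B = 0) (b : Polynomial ℂ)
    (hb : IsBFunction (map (Int.castRingHom ℂ) f) b) :
    b.eval ((-(Real.log ‖T₀‖ / Real.log p) : ℝ) : ℂ) = 0 := by
  by_contra hne
  obtain ⟨E⟩ := H48L.exists_emb p
  refine H48L.final n p (E.toRingHom.comp (algebraMap _ _)) f hdeg (fun a h1 h2 => ?_) A B hAB hP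
    T₀ hT b hb (by simpa using hne)
  obtain ⟨r, k, m, c, φ, g, h, u, h1, h2, h3, h4, h5, h6⟩ := hchart a h1 h2
  exact ⟨r, k, m, c, Sum.elim φ g, h, u, ⟨h1, h2, h3, h4, h5⟩, ndAt E h6⟩

end Pool.Agent.Results.MP_5d9b3c_ag.LocallyNondegenerate
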