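import Pool.Agent.MP_5d9b3c_ag.P3.Final

/-!
The strong form of Igusa's monodromy conjecture, for every prime and every polynomial in at most
three variables.
-/

namespace Pool.Agent.Results.MP_5d9b3c_ag.ThreeVariables

open Pool.Agent.MP_5d9b3c_ag.H72 Pool.Agent.MP_5d9b3c_ag.P3

theorem result (n : ℕ) (hn : n ≤ 3) (f : MvPolynomial (Fin n) ℤ) (h0 : f ≠ 0) (p : ℕ)
    (hp : p.Prime) (A B : Polynomial ℚ) (hAB : IsCoprime A B)
    (hP : (B : PowerSeries ℚ) * poincare f p = (A : PowerSeries ℚ))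
    (T₀ : ℂ) (hT : Polynomial.aeval T₀ B = 0) (b : Polynomial ℂ)
    (hb : IsBFunction (MvPolynomial.map (Int.castRingHom ℂ) f) b) :
    b.eval ((-(Real.log ‖T₀‖ / Real.log p) : ℝ) : ℂ) = 0 :=
  low main hn h0 hp hAB hP hT hb

end Pool.Agent.Results.MP_5d9b3c_ag.ThreeVariables
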