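import Pool.Agent.MP_5d9b3c_ag.H48G.Final
import Pool.Agent.MP_ee8c61_ag.H95G.Main
import Pool.Agent.MP_ee8c61_ag.H59.Final

/-!
The strong form of Igusa's monodromy conjecture, for every prime, for the polynomials and ideals
with a toroidal model whose divisors are ample over the blow-up of the ideal or compute a threshold.
-/

namespace Pool.Agent.Results.MP_5d9b3c_ag.ToroidalModels

open AlgebraicGeometry MvPolynomial Pool.Agent.MP_5d9b3c_ag.H72 Pool.Agent.MP_5d9b3c_ag.H48G

theorem result {r N : ℕ} (f : Fin (r + 1) → MvPolynomial (Fin N) ℤ) (hr : r = 0 ∨ f 0 = 0)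
    (hf : (comb f).totalDegree ≠ 0) (p : ℕ) [Fact p.Prime] (F : Type) [Field F] [Algebra F ℚ_[p]]
    (Y : Scheme.{0}) (π : Y ⟶ Aff F N)
    (h : Toroidal p (Ideal.span (Set.range fun j => map (Int.castRingHom F) (f j))) π
      (ratios (Ideal.span (Set.range fun j => map (Int.castRingHom ℂ) (f j)))))
    (A B : Polynomial ℚ) (hAB : IsCoprime A B)
    (hP : (B : PowerSeries ℚ) * poincare (comb f) p = (A : PowerSeries ℚ))
    (T₀ : ℂ) (hT : Polynomial.aeval T₀ B = 0) (b : Polynomial ℂ)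
    (hb : IsBFunction (map (Int.castRingHom ℂ) (comb f)) b) :
    b.eval ((-(Real.log ‖T₀‖ / Real.log p) : ℝ) : ℂ) = 0 :=
  main (MP_ee8c61_ag.H95G.root MP_ee8c61_ag.H59.smain) f hr hf h hAB hP hT hb

end Pool.Agent.Results.MP_5d9b3c_ag.ToroidalModels
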