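import Pool.Agent.MP_5d9b3c_ag.O5.Final3

/-!
The strong form of Igusa's monodromy conjecture, for every prime, for the polynomials
`y_1 f_1(x) + ⋯ + y_r f_r(x)`, where the `f_i` are polynomials in `3 + k` variables that are
homogeneous for `k` weights with disjoint supports: all poles but one for each weight need no
hypothesis, and the remaining ones are settled when the sum of the weights is the degree or the
ideal has many invariant logarithmic pluricanonical forms.
-/

namespace Pool.Agent.Results.MP_5d9b3c_ag.WeightedQuaternary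

open MvPolynomial Pool.Agent.MP_5d9b3c_ag Pool.Agent.MP_5d9b3c_ag.H72

theorem result (k r : ℕ) (w : Fin k → Fin (3 + k) → ℕ) (d : Fin k → ℕ)
    (f : Fin r → MvPolynomial (Fin (3 + k)) ℤ) (hf : ∃ i, f i ≠ 0) (hd : ∀ j, 0 < d j)
    (hs : ∀ j j', j ≠ j' → ∀ l, w j l = 0 ∨ w j' l = 0)
    (hw : ∀ j i, (f i).IsWeightedHomogeneous (w j) (d j))
    (F : MvPolynomial (Fin r ⊕ Fin (3 + k)) ℤ)
    (hF : F = ∑ i, X (Sum.inl i) * rename Sum.inr (f i))
    (p : ℕ) (hp : p.Prime) (A B : Polynomial ℚ) (hAB : IsCoprime A B)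
    (hP : (B : PowerSeries ℚ) * poincare F p = (A : PowerSeries ℚ))
    (T₀ : ℂ) (hT : Polynomial.aeval T₀ B = 0)
    (hL : ∀ j, T₀ ^ d j = (p : ℂ) ^ ∑ l, w j l → ∑ l, w j l ≠ d j →
      O5.LogGeneral (w j) (Ideal.span (Set.range fun i => map (Int.castRingHom ℂ) (f i))) (d j))
    (b : Polynomial ℂ) (hb : IsBFunction (map (Int.castRingHom ℂ) F) b) :
    b.eval ((-(Real.log ‖T₀‖ / Real.log p) : ℝ) : ℂ) = 0 :=
  O5.main3 hf hd hs hw hF hp hAB hP hT hL hb

end Pool.Agent.Results.MP_5d9b3c_ag.WeightedQuaternary
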